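import Pool.Agent.R804.TK.Defs

/-!
# Token graphs: the case of `k + 1` vertices
-/

set_option autoImplicit false

namespace Pool.Agent.R931.TK

open Pool.Agent.R553.HW Pool.Agent.R804.TK

theorem BAS : S_BAS := by
  intro V _ G k m hk h
  have hn : ∀ x : V, ({x}ᶜ : Set V).ncard = k := by
    intro x
    have h1 := Set.ncard_add_ncard_compl ({x} : Set V)
    rw [Set.ncard_singleton, hk] at h1
    omega
  let J : V → {S : Set V // S.ncard = k} := fun x => ⟨{x}ᶜ, hn x⟩
  have hJ : ∀ x y, J x = J y → x = y := by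
    intro x y hxy
    have h1 : ({x}ᶜ : Set V) = {y}ᶜ := congrArg Subtype.val hxy
    exact Set.singleton_injective (compl_injective h1)
  have hd : ∀ x y : V, x ≠ y → ({x}ᶜ : Set V) \ {y}ᶜ = {y} := by
    intro x y hxy
    ext z
    simp only [Set.mem_sdiff, Set.mem_compl_iff, Set.mem_singleton_iff, not_not]
    constructor
    · exact fun h => h.2
    · rintro rfl
      exact ⟨fun h => hxy h.symm, rfl⟩
  refine CMt_comp (tok k G) G (fun x => {J x}) (fun x => conn_singleton _ _) ?_ ?_ h
  · intro x y hxy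
    rw [Set.disjoint_singleton]
    exact fun h => hxy (hJ x y h)
  · intro x y hxy
    exact ⟨J x, rfl, J y, rfl, y, x, hxy.symm, hd x y hxy.ne, hd y x hxy.ne'⟩

end Pool.Agent.R931.TK
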