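import Pool.Agent.R931.TK.Main

/-!
# Token graphs: colourings, and Hadwiger's conjecture
-/

set_option autoImplicit false

namespace Pool.Agent.R931.TK

open Pool.Agent.R553.HW Pool.Agent.R804.TK

/-- A colouring of `G` gives a colouring of the token graphs. -/
theorem tok_colorable {V : Type} [Finite V] (G : SimpleGraph V) (k n : ℕ) (hn : 1 ≤ n)
    (h : G.Colorable n) : (tok k G).Colorable n := by
  classical
  have := Fintype.ofFinite V
  have : NeZero n := ⟨by omega⟩
  obtain ⟨c⟩ := h
  let e : Fin n ≃ ZMod n := ZMod.finEquiv n |>.toEquiv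
  let s : {S : Set V // S.ncard = k} → Finset V := fun S => S.1.toFinset
  let col : {S : Set V // S.ncard = k} → ZMod n := fun S => ∑ x ∈ s S, e (c x)
  have hcol : ∀ S T, (tok k G).Adj S T → col S ≠ col T := by
    rintro S T ⟨a, b, hab, h1, h2⟩ he
    have e1 : s S \ s T = {a} := by
      ext x
      have := Set.ext_iff.1 h1 x
      simpa [s] using this
    have e2 : s T \ s S = {b} := by
      ext x
      have := Set.ext_iff.1 h2 x
      simpa [s] using this
    have h3 := Finset.sum_sdiff_sub_sum_sdiff (s₁ := s T) (s₂ := s S) (f := fun x => e (c x))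
    rw [e1, e2, Finset.sum_singleton, Finset.sum_singleton] at h3
    change _ = col S - col T at h3
    rw [he, sub_self, sub_eq_zero] at h3
    exact c.valid hab (e.injective h3)
  exact ⟨SimpleGraph.Coloring.mk (fun S => e.symm (col S)) fun {S T} hST h =>
    hcol S T hST (e.symm.injective h)⟩

/-- token graphs with at most one vertex -/
theorem had_subsingleton {V : Type} [Subsingleton V] (G : SimpleGraph V) : Had G := by
  intro t ht
  have hV : Nonempty V := by
    by_contra hcon
    rw [not_nonempty_iff] at hcon
    exact ht (SimpleGraph.Colorable.of_isEmpty t)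
  obtain ⟨x⟩ := hV
  have h0 : t = 0 := by
    by_contra h
    have : NeZero t := ⟨h⟩
    refine ht ⟨SimpleGraph.Coloring.mk (fun _ => (0 : Fin t)) fun {a b} hab => ?_⟩
    exact absurd (Subsingleton.elim a b) hab.ne
  subst h0
  refine ⟨fun _ => {x}, fun _ => conn_singleton G x, fun i j hij => ?_, fun i j hij => ?_⟩
  · exact absurd (Subsingleton.elim (α := Fin 1) i j) hij
  · exact absurd (Subsingleton.elim (α := Fin 1) i j) hij

/-- Hadwiger's conjecture passes from `G` to the token graphs. -/
theorem had_tok {V : Type} [Finite V] (G : SimpleGraph V) (k : ℕ) (h : Had G) :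
    Had (tok k G) := by
  classical
  by_cases hk : 1 ≤ k ∧ k + 1 ≤ Nat.card V
  · intro t ht
    by_cases ht0 : 1 ≤ t
    · have h1 : ¬ G.Colorable t := fun hc => ht (tok_colorable G k t ht0 hc)
      exact tok_minor _ V G k (t + 1) rfl hk.1 hk.2 (h t h1)
    · have h0 : t = 0 := by omega
      subst h0
      have hne : Nonempty {S : Set V // S.ncard = k} := by
        by_contra hcon
        rw [not_nonempty_iff] at hcon
        exact ht (SimpleGraph.Colorable.of_isEmpty 0)
      obtain ⟨x⟩ := hne
      refine ⟨fun _ => {x}, fun _ => conn_singleton _ x, fun i j hij => ?_, fun i j hij => ?_⟩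
      · exact absurd (Subsingleton.elim (α := Fin 1) i j) hij
      · exact absurd (Subsingleton.elim (α := Fin 1) i j) hij
  · have hsub : Subsingleton {S : Set V // S.ncard = k} := by
      refine ⟨fun S T => Subtype.ext ?_⟩
      have hk' : k = 0 ∨ Nat.card V ≤ k := by omega
      rcases hk' with rfl | hk'
      · rw [(Set.ncard_eq_zero (Set.toFinite _)).1 S.2, (Set.ncard_eq_zero (Set.toFinite _)).1 T.2]
      · have hu : ∀ S : {S : Set V // S.ncard = k}, S.1 = Set.univ := by
          intro S
          refine Set.eq_of_subset_of_ncard_le (Set.subset_univ _) ?_ (Set.toFinite _)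
          rw [Set.ncard_univ, S.2]
          exact hk'
        rw [hu S, hu T]
    exact had_subsingleton _

/-- The same for the form off by one. -/
theorem obo_tok {V : Type} [Finite V] (G : SimpleGraph V) (k : ℕ) (h : Obo G) :
    Obo (tok k G) := by
  classical
  by_cases hk : 1 ≤ k ∧ k + 1 ≤ Nat.card V
  · intro t ht
    by_cases ht0 : 1 ≤ t
    · have h1 : ¬ G.Colorable t := fun hc => ht (tok_colorable G k t ht0 hc)
      exact tok_minor _ V G k t rfl hk.1 hk.2 (h t h1)
    · have h0 : t = 0 := by omega
      subst h0
      exact ⟨fun i => i.elim0, fun i => i.elim0, fun i => i.elim0, fun i => i.elim0⟩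
  · have hsub : Subsingleton {S : Set V // S.ncard = k} := by
      refine ⟨fun S T => Subtype.ext ?_⟩
      have hk' : k = 0 ∨ Nat.card V ≤ k := by omega
      rcases hk' with rfl | hk'
      · rw [(Set.ncard_eq_zero (Set.toFinite _)).1 S.2, (Set.ncard_eq_zero (Set.toFinite _)).1 T.2]
      · have hu : ∀ S : {S : Set V // S.ncard = k}, S.1 = Set.univ := by
          intro S
          refine Set.eq_of_subset_of_ncard_le (Set.subset_univ _) ?_ (Set.toFinite _)
          rw [Set.ncard_univ, S.2]
          exact hk'
        rw [hu S, hu T]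
    intro t ht
    exact CMt_emb (had_subsingleton _ t ht) Fin.castSuccEmb

end Pool.Agent.R931.TK
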