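import Pool.Agent.R931.TK.JOH

/-!
# Token graphs: contraction of an edge
-/

set_option autoImplicit false

namespace Pool.Agent.R931.TK

open Pool.Agent.R553.HW Pool.Agent.R804.TK

section

variable {V : Type} {v : V} {k : ℕ}

theorem val_inj : Function.Injective (Subtype.val : {x : V // x ≠ v} → V) :=
  Subtype.val_injective

/-- the image -/
noncomputable def lift1 (S : {S : Set {x : V // x ≠ v} // S.ncard = k}) :
    {S : Set V // S.ncard = k} :=
  ⟨Subtype.val '' S.1, by rw [Set.ncard_image_of_injective _ val_inj, S.2]⟩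

theorem mem_lift1 {S : {S : Set {x : V // x ≠ v} // S.ncard = k}} {x : V} (hx : x ≠ v) :
    x ∈ (lift1 S).1 ↔ (⟨x, hx⟩ : {x : V // x ≠ v}) ∈ S.1 := by
  constructor
  · rintro ⟨y, hy, hyx⟩
    have h : y = ⟨x, hx⟩ := Subtype.ext hyx
    rwa [h] at hy
  · intro h
    exact ⟨_, h, rfl⟩

theorem notMem_lift1 (S : {S : Set {x : V // x ≠ v} // S.ncard = k}) : v ∉ (lift1 S).1 := by
  rintro ⟨x, -, hx⟩
  exact x.2 hx

/-- the branch sets -/
def br (u : V) (S : {S : Set {x : V // x ≠ v} // S.ncard = k}) :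
    Set {S : Set V // S.ncard = k} :=
  {T | T = lift1 S ∨ (u ∈ (lift1 S).1 ∧ T.1 = insert v ((lift1 S).1 \ {u}))}

theorem br_conn [Finite V] {G : SimpleGraph V} {u : V} (huv : G.Adj u v)
    (S : {S : Set {x : V // x ≠ v} // S.ncard = k}) :
    ((tok k G).induce (br u S)).Connected := by
  have h0 : lift1 S ∈ br u S := Or.inl rfl
  have key : ∀ T : br u S, ((tok k G).induce (br u S)).Reachable ⟨lift1 S, h0⟩ T := by
    rintro ⟨T, hT | ⟨hu, hT⟩⟩
    · subst hT
      exact SimpleGraph.Reachable.refl _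
    · apply SimpleGraph.Adj.reachable
      have hne : u ≠ v := huv.ne
      have hv := notMem_lift1 S
      refine ⟨u, v, huv, ?_, ?_⟩
      · change (lift1 S).1 \ T.1 = {u}
        rw [hT]
        ext x
        simp only [Set.mem_sdiff, Set.mem_insert_iff, Set.mem_singleton_iff, not_or, not_and,
          not_not]
        constructor
        · rintro ⟨h1, -, h2⟩
          exact h2 h1
        · rintro rfl
          exact ⟨hu, hne, fun _ => rfl⟩
      · change T.1 \ (lift1 S).1 = {v}
        rw [hT]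
        ext x
        simp only [Set.mem_sdiff, Set.mem_insert_iff, Set.mem_singleton_iff]
        constructor
        · rintro ⟨h1 | h1, h2⟩
          · exact h1
          · exact absurd h1.1 h2
        · rintro rfl
          exact ⟨Or.inl rfl, hv⟩
  rw [SimpleGraph.connected_iff]
  exact ⟨fun T T' => (key T).symm.trans (key T'), ⟨⟨lift1 S, h0⟩⟩⟩

theorem br_rec {u : V} (hne : u ≠ v) {S : {S : Set {x : V // x ≠ v} // S.ncard = k}}
    {T : {S : Set V // S.ncard = k}} (hT : T ∈ br u S) :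
    {x : {x : V // x ≠ v} | x.1 ∈ T.1 ∨ (x.1 = u ∧ v ∈ T.1)} = S.1 := by
  ext ⟨x, hx⟩
  rw [Set.mem_setOf_eq, ← mem_lift1 hx]
  rcases hT with hT | ⟨hu, hT⟩
  · subst hT
    constructor
    · rintro (h | ⟨-, h⟩)
      · exact h
      · exact absurd h (notMem_lift1 S)
    · exact Or.inl
  · rw [hT]
    constructor
    · rintro ((h | h) | ⟨h, -⟩)
      · exact absurd h hx
      · exact h.1
      · change x = u at h
        rw [h]
        exact hu
    · intro h
      by_cases hxu : x = u
      · exact Or.inr ⟨hxu, Or.inl rfl⟩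
      · exact Or.inl (Or.inr ⟨h, hxu⟩)

theorem lift1_diff {S T : {S : Set {x : V // x ≠ v} // S.ncard = k}} {a : {x : V // x ≠ v}}
    (h : S.1 \ T.1 = {a}) : (lift1 S).1 \ (lift1 T).1 = {a.1} := by
  change Subtype.val '' S.1 \ Subtype.val '' T.1 = {a.1}
  rw [← Set.image_sdiff val_inj, h, Set.image_singleton]

theorem br_case [Finite V] {G : SimpleGraph V} {S T : {S : Set {x : V // x ≠ v} // S.ncard = k}}
    {a b : {x : V // x ≠ v}} (h1 : S.1 \ T.1 = {a}) (h2 : T.1 \ S.1 = {b})
    (hb : G.Adj v b.1) :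
    ∃ S' ∈ br a.1 S, ∃ T' ∈ br a.1 T, (tok k G).Adj S' T' := by
  have e1 := lift1_diff h1
  have e2 := lift1_diff h2
  have haS : a.1 ∈ (lift1 S).1 \ (lift1 T).1 := by
    rw [e1]
    exact rfl
  have hbT : b.1 ∈ (lift1 T).1 \ (lift1 S).1 := by
    rw [e2]
    exact rfl
  refine ⟨⟨insert v ((lift1 S).1 \ {a.1}), exch_ncard (lift1 S).2 haS.1 (notMem_lift1 S)⟩,
    Or.inr ⟨haS.1, rfl⟩, lift1 T, Or.inl rfl, v, b.1, hb, ?_, ?_⟩
  · change insert v ((lift1 S).1 \ {a.1}) \ (lift1 T).1 = {v}
    ext x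
    constructor
    · rintro ⟨h3 | h3, h4⟩
      · exact h3
      · exfalso
        have h5 : x ∈ (lift1 S).1 \ (lift1 T).1 := ⟨h3.1, h4⟩
        rw [e1] at h5
        exact h3.2 h5
    · intro h3
      have h4 : x = v := h3
      subst h4
      exact ⟨Or.inl rfl, notMem_lift1 T⟩
  · change (lift1 T).1 \ insert v ((lift1 S).1 \ {a.1}) = {b.1}
    ext x
    constructor
    · rintro ⟨h3, h4⟩
      have h5 : x ∉ (lift1 S).1 := by
        intro h5
        by_cases hxa : x = a.1
        · rw [hxa] at h3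
          exact haS.2 h3
        · exact h4 (Or.inr ⟨h5, hxa⟩)
      rw [← e2]
      exact ⟨h3, h5⟩
    · intro h3
      have h4 : x = b.1 := h3
      subst h4
      refine ⟨hbT.1, ?_⟩
      rintro (h5 | h5)
      · exact b.2 h5
      · exact hbT.2 h5.1

end

/-- The token graph of a contraction is a minor of the token graph. -/
theorem CON : S_CON := by
  classical
  intro V _ G u v huv k m h
  refine CMt_comp (tok k G) (tok k (contr G u v)) (br u) (br_conn huv) ?_ ?_ h
  · intro S T hST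
    rw [Set.disjoint_left]
    intro X hX hY
    exact hST (Subtype.ext ((br_rec huv.ne hX).symm.trans (br_rec huv.ne hY)))
  · rintro S T ⟨a, b, ⟨hab, hadj⟩, h1, h2⟩
    rcases hadj with hadj | ⟨hau, hadj⟩ | ⟨hbu, hadj⟩
    · exact ⟨lift1 S, Or.inl rfl, lift1 T, Or.inl rfl, a.1, b.1, hadj, lift1_diff h1,
        lift1_diff h2⟩
    · have h3 := br_case h1 h2 hadj
      rwa [hau] at h3
    · have h3 := br_case h2 h1 hadj.symm
      rw [hbu] at h3
      obtain ⟨T', hT', S', hS', h4⟩ := h3
      exact ⟨S', hS', T', hT', h4.symm⟩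

end Pool.Agent.R931.TK
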