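import Pool.Agent.R804.TK.Defs

/-!
# Token graphs: deleting a vertex
-/

set_option autoImplicit false

namespace Pool.Agent.R931.TK

open Pool.Agent.R553.HW Pool.Agent.R804.TK

/-- Deleting a vertex. -/
theorem DEL : S_DEL := by
  intro V _ G v k m h
  have hinj : Function.Injective (Subtype.val : {x : V | x ≠ v} → V) := Subtype.val_injective
  let I : {S : Set {x : V | x ≠ v} // S.ncard = k} → {S : Set V // S.ncard = k} :=
    fun S => ⟨Subtype.val '' S.1, by rw [Set.ncard_image_of_injective _ hinj, S.2]⟩
  have hI : ∀ S T, I S = I T → S = T := by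
    intro S T hST
    apply Subtype.ext
    exact hinj.image_injective (congrArg Subtype.val hST)
  refine CMt_comp (tok k G) (tok k (G.induce {x | x ≠ v})) (fun S => {I S})
    (fun S => conn_singleton _ _) ?_ ?_ h
  · intro S T hST
    rw [Set.disjoint_singleton]
    exact fun h => hST (hI S T h)
  · rintro S T ⟨a, b, hab, h1, h2⟩
    refine ⟨I S, rfl, I T, rfl, a.1, b.1, hab, ?_, ?_⟩
    · change Subtype.val '' S.1 \ Subtype.val '' T.1 = {a.1}
      rw [← Set.image_sdiff hinj, h1, Set.image_singleton]
    · change Subtype.val '' T.1 \ Subtype.val '' S.1 = {b.1}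
      rw [← Set.image_sdiff hinj, h2, Set.image_singleton]

end Pool.Agent.R931.TK
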