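import Pool.Agent.R931.TK.MIN

/-!
# Token graphs: the recursion for Johnson graphs
-/

set_option autoImplicit false

namespace Pool.Agent.R931.TK

open Pool.Agent.R553.HW Pool.Agent.R804.TK

theorem exch_ncard {V : Type} [Finite V] {S : Set V} {k : ℕ} (hS : S.ncard = k) {a b : V}
    (ha : a ∈ S) (hb : b ∉ S) : (insert b (S \ {a})).ncard = k := by
  have h1 : b ∉ S \ {a} := fun h => hb h.1
  rw [Set.ncard_insert_of_notMem h1 (Set.toFinite _), Set.ncard_sdiff_singleton_of_mem ha, hS]
  have h2 : 0 < S.ncard := (Set.ncard_pos (Set.toFinite _)).2 ⟨a, ha⟩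
  omega

theorem exch_adj {V : Type} [Finite V] {k : ℕ} (S : {S : Set V // S.ncard = k}) {a b : V}
    (ha : a ∈ S.1) (hb : b ∉ S.1) :
    (tok k (⊤ : SimpleGraph V)).Adj S ⟨insert b (S.1 \ {a}), exch_ncard S.2 ha hb⟩ := by
  have hab : a ≠ b := fun h => hb (h ▸ ha)
  refine ⟨a, b, (SimpleGraph.top_adj a b).2 hab, ?_, ?_⟩
  · ext x
    simp only [Set.mem_sdiff, Set.mem_insert_iff, Set.mem_singleton_iff, not_or, not_and, not_not]
    constructor
    · rintro ⟨h1, -, h2⟩
      exact h2 h1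
    · rintro rfl
      exact ⟨ha, hab, fun _ => rfl⟩
  · ext x
    simp only [Set.mem_sdiff, Set.mem_insert_iff, Set.mem_singleton_iff]
    constructor
    · rintro ⟨h1 | h1, h2⟩
      · exact h1
      · exact absurd h1.1 h2
    · rintro rfl
      exact ⟨Or.inl rfl, hb⟩

/-- the sets which contain `v` -/
def star {V : Type} (v : V) (k : ℕ) : Set {S : Set V // S.ncard = k} := {S | v ∈ S.1}

theorem star_conn {V : Type} [Finite V] (v : V) (k : ℕ) (hk : 1 ≤ k) (hkV : k ≤ Nat.card V) :
    ((tok k (⊤ : SimpleGraph V)).induce (star v k)).Connected := by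
  classical
  have key : ∀ (n : ℕ) (S T : star v k), (S.1.1 \ T.1.1).ncard = n →
      ((tok k (⊤ : SimpleGraph V)).induce (star v k)).Reachable S T := by
    intro n
    induction n with
    | zero =>
      intro S T h
      have h1 : S.1.1 ⊆ T.1.1 := by
        rw [← Set.sdiff_eq_empty]
        exact (Set.ncard_eq_zero (Set.toFinite _)).1 h
      have h2 : S.1.1 = T.1.1 := Set.eq_of_subset_of_ncard_le h1
        (by rw [S.1.2, T.1.2]) (Set.toFinite _)
      have h3 : S = T := Subtype.ext (Subtype.ext h2)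
      rw [h3]
    | succ n ih =>
      intro S T h
      obtain ⟨a, ha⟩ : (S.1.1 \ T.1.1).Nonempty := by
        rw [← Set.ncard_pos (Set.toFinite _), h]
        exact Nat.succ_pos n
      obtain ⟨b, hb⟩ : (T.1.1 \ S.1.1).Nonempty := by
        by_contra hcon
        rw [Set.not_nonempty_iff_eq_empty, Set.sdiff_eq_empty] at hcon
        have h2 : T.1.1 = S.1.1 := Set.eq_of_subset_of_ncard_le hcon
          (by rw [S.1.2, T.1.2]) (Set.toFinite _)
        exact ha.2 (h2 ▸ ha.1)
      have hva : v ≠ a := fun h => ha.2 (h ▸ T.2)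
      let S₁ : star v k :=
        ⟨⟨insert b (S.1.1 \ {a}), exch_ncard S.1.2 ha.1 hb.2⟩, Or.inr ⟨S.2, hva⟩⟩
      have hadj : ((tok k (⊤ : SimpleGraph V)).induce (star v k)).Adj S S₁ :=
        exch_adj S.1 ha.1 hb.2
      refine hadj.reachable.trans (ih S₁ T ?_)
      have h2 : S₁.1.1 \ T.1.1 = (S.1.1 \ T.1.1) \ {a} := by
        ext x
        change x ∈ insert b (S.1.1 \ {a}) \ T.1.1 ↔ _
        simp only [Set.mem_sdiff, Set.mem_insert_iff, Set.mem_singleton_iff]
        constructor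
        · rintro ⟨h3 | h3, h4⟩
          · exact absurd (h3 ▸ hb.1) h4
          · exact ⟨⟨h3.1, h4⟩, h3.2⟩
        · rintro ⟨⟨h3, h4⟩, h5⟩
          exact ⟨Or.inr ⟨h3, h5⟩, h4⟩
      rw [h2, Set.ncard_sdiff_singleton_of_mem ha, h]
      rfl
  rw [SimpleGraph.connected_iff]
  refine ⟨fun S T => key _ S T rfl, ?_⟩
  obtain ⟨S, hS, hSk⟩ : ∃ S : Set V, v ∈ S ∧ S.ncard = k := by
    have := Fintype.ofFinite V
    obtain ⟨S, h1, -, h3⟩ := Finset.exists_subsuperset_card_eq (s := {v}) (t := Finset.univ) (n := k)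
      (Finset.subset_univ _) (by rw [Finset.card_singleton]; exact hk)
      (by rw [Finset.card_univ, ← Nat.card_eq_fintype_card]; exact hkV)
    exact ⟨S, h1 (Finset.mem_singleton_self v), by rw [Set.ncard_coe_finset, h3]⟩
  exact ⟨⟨⟨S, hSk⟩, hS⟩⟩

/-- The recursion for Johnson graphs. -/
theorem JOH : S_JOH := by
  classical
  intro V _ v k m hk hkV h
  obtain ⟨f, h1, h2, h3⟩ := h
  have hinj : Function.Injective (Subtype.val : {x : V | x ≠ v} → V) := Subtype.val_injective
  let I : {S : Set {x : V | x ≠ v} // S.ncard = k} → {S : Set V // S.ncard = k} :=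
    fun S => ⟨Subtype.val '' S.1, by rw [Set.ncard_image_of_injective _ hinj, S.2]⟩
  have hI : Function.Injective I := by
    intro S T hST
    apply Subtype.ext
    exact hinj.image_injective (congrArg Subtype.val hST)
  have hIadj : ∀ S T, (tok k ((⊤ : SimpleGraph V).induce {x | x ≠ v})).Adj S T →
      (tok k (⊤ : SimpleGraph V)).Adj (I S) (I T) := by
    rintro S T ⟨a, b, hab, e1, e2⟩
    refine ⟨a.1, b.1, hab, ?_, ?_⟩
    · change Subtype.val '' S.1 \ Subtype.val '' T.1 = {a.1}
      rw [← Set.image_sdiff hinj, e1, Set.image_singleton]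
    · change Subtype.val '' T.1 \ Subtype.val '' S.1 = {b.1}
      rw [← Set.image_sdiff hinj, e2, Set.image_singleton]
  have hIv : ∀ S, v ∉ (I S).1 := by
    rintro S ⟨x, -, hx⟩
    exact x.2 hx
  have hedge : ∀ i, ∃ S ∈ I '' f i, ∃ T ∈ star v k, (tok k (⊤ : SimpleGraph V)).Adj S T := by
    intro i
    obtain ⟨S', hS'⟩ := (h1 i).nonempty
    obtain ⟨a, ha⟩ : (I S').1.Nonempty := by
      rw [← Set.ncard_pos (Set.toFinite _), (I S').2]
      exact hk
    exact ⟨I S', ⟨S', hS', rfl⟩, _, Or.inl rfl, exch_adj (I S') ha (hIv S')⟩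
  have hdisj : ∀ i, Disjoint (I '' f i) (star v k) := by
    intro i
    rw [Set.disjoint_left]
    rintro _ ⟨S', -, rfl⟩ hT
    exact hIv S' hT
  have hmain : CMt (tok k (⊤ : SimpleGraph V)) (Option (Fin m)) := by
    refine ⟨fun o => o.elim (star v k) fun i => I '' f i, ?_, ?_, ?_⟩
    · rintro (_ | i)
      · exact star_conn v k hk (by omega)
      · refine conn_map _ _ (fun S => ⟨I S.1, S.1, S.2, rfl⟩) ?_ ?_ (h1 i)
        · rintro ⟨_, ⟨S', hS', rfl⟩⟩
          exact ⟨⟨S', hS'⟩, rfl⟩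
        · intro S T hST
          exact Or.inr (hIadj _ _ hST)
    · rintro (_ | i) (_ | j) hij
      · exact absurd rfl hij
      · exact (hdisj j).symm
      · exact hdisj i
      · exact (Set.disjoint_image_iff hI).2 (h2 i j fun h => hij (congrArg some h))
    · rintro (_ | i) (_ | j) hij
      · exact absurd rfl hij
      · obtain ⟨S, hS, T, hT, hST⟩ := hedge j
        exact ⟨T, hT, S, hS, hST.symm⟩
      · exact hedge i
      · obtain ⟨S, hS, T, hT, hST⟩ := h3 i j fun h => hij (congrArg some h)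
        exact ⟨I S, ⟨S, hS, rfl⟩, I T, ⟨T, hT, rfl⟩, hIadj _ _ hST⟩
  exact CMt_of_card hmain (by rw [Fintype.card_option, Fintype.card_fin])

end Pool.Agent.R931.TK
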