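import Pool.Agent.R804.TK.Defs

/-!
# Token graphs: clique minors of a contraction
-/

set_option autoImplicit false

namespace Pool.Agent.R931.TK

open Pool.Agent.R553.HW Pool.Agent.R804.TK

theorem conn_map {A B : Type} (G : SimpleGraph A) (H : SimpleGraph B) (φ : A → B)
    (hs : Function.Surjective φ) (h : ∀ a b, G.Adj a b → φ a = φ b ∨ H.Adj (φ a) (φ b))
    (hG : G.Connected) : H.Connected := by
  have key : ∀ (a b : A) (_ : G.Walk a b), H.Reachable (φ a) (φ b) := by
    intro a b p
    induction p with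
    | nil => exact SimpleGraph.Reachable.refl _
    | cons hab p ih =>
      rcases h _ _ hab with h1 | h1
      · rw [h1]
        exact ih
      · exact h1.reachable.trans ih
  rw [SimpleGraph.connected_iff]
  refine ⟨fun x y => ?_, hG.nonempty.map φ⟩
  obtain ⟨a, rfl⟩ := hs x
  obtain ⟨b, rfl⟩ := hs y
  obtain ⟨p⟩ := hG.preconnected a b
  exact key a b p

/-- A clique minor with `u, v` in the same branch set gives one of the contraction. -/
theorem MIN : S_MIN := by
  classical
  intro V G u v huv m f hc hd ha i hui hvi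
  have hne : u ≠ v := huv.ne
  let π : V → {x : V // x ≠ v} := fun x => if h : x = v then ⟨u, hne⟩ else ⟨x, h⟩
  have hπv : π v = ⟨u, hne⟩ := dif_pos rfl
  have hπ : ∀ x (h : x ≠ v), π x = ⟨x, h⟩ := fun x h => dif_neg h
  have hadj : ∀ x y, G.Adj x y → π x = π y ∨ (contr G u v).Adj (π x) (π y) := by
    intro x y hxy
    by_cases he : π x = π y
    · exact Or.inl he
    refine Or.inr ⟨he, ?_⟩
    by_cases hx : x = v
    · subst hx
      have hy : y ≠ x := hxy.ne'
      rw [hπv, hπ y hy]
      exact Or.inr (Or.inl ⟨rfl, hxy⟩)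
    · by_cases hy : y = v
      · subst hy
        rw [hπv, hπ x hx]
        exact Or.inr (Or.inr ⟨rfl, hxy⟩)
      · rw [hπ x hx, hπ y hy]
        exact Or.inl hxy
  have hmem : ∀ j, ∀ x ∈ f j, (π x).1 ∈ f j := by
    intro j x hx
    by_cases h : x = v
    · subst h
      have hij : i = j := by
        by_contra hij
        exact Set.disjoint_left.1 (hd i j hij) hvi hx
      rw [hπv]
      exact hij ▸ hui
    · rw [hπ x h]
      exact hx
  refine ⟨fun j => {x | x.1 ∈ f j}, fun j => ?_, fun j l hjl => ?_, fun j l hjl => ?_⟩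
  · refine conn_map (G.induce (f j)) _ (fun x => ⟨π x.1, hmem j x.1 x.2⟩) ?_ ?_ (hc j)
    · rintro ⟨x, hx⟩
      refine ⟨⟨x.1, hx⟩, ?_⟩
      apply Subtype.ext
      exact hπ x.1 x.2
    · rintro ⟨a, ha'⟩ ⟨b, hb'⟩ hab
      rcases hadj a b hab with h | h
      · exact Or.inl (Subtype.ext h)
      · exact Or.inr h
  · rw [Set.disjoint_left]
    intro x hx hy
    exact Set.disjoint_left.1 (hd j l hjl) hx hy
  · obtain ⟨x, hx, y, hy, hxy⟩ := ha j l hjl
    refine ⟨π x, hmem j x hx, π y, hmem l y hy, ?_⟩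
    rcases hadj x y hxy with h | h
    · exfalso
      have h1 := hmem j x hx
      rw [h] at h1
      exact Set.disjoint_left.1 (hd j l hjl) h1 (hmem l y hy)
    · exact h

end Pool.Agent.R931.TK
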