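import Pool.Agent.R931.TK.DEL
import Pool.Agent.R931.TK.Contr
import Pool.Agent.R931.TK.Bas

/-!
# Clique minors of token graphs
-/

set_option autoImplicit false

namespace Pool.Agent.R931.TK

open Pool.Agent.R553.HW Pool.Agent.R804.TK

theorem tok_minor : ∀ (n : ℕ) (V : Type) [Finite V] (G : SimpleGraph V) (k m : ℕ),
    Nat.card V = n → 1 ≤ k → k + 1 ≤ n → CMt G (Fin m) → CMt (tok k G) (Fin m) := by
  classical
  intro n
  induction n with
  | zero => exact fun V _ G k m _ _ h => absurd h (by omega)
  | succ n ih =>
    intro V _ G k m hn hk hkn h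
    by_cases hk1 : k + 1 = n + 1
    · exact BAS V G k m (by omega) h
    have hdel : ∀ v : V, Nat.card {x : V // x ≠ v} = n := by
      intro v
      have := Fintype.ofFinite V
      rw [Nat.card_eq_fintype_card, Fintype.card_subtype_compl, Fintype.card_subtype_eq,
        ← Nat.card_eq_fintype_card, hn]
      rfl
    obtain ⟨f, h1, h2, h3⟩ := h
    by_cases hbig : ∃ i, ∃ u ∈ f i, ∃ v ∈ f i, G.Adj u v
    · obtain ⟨i, u, hu, v, hv, huv⟩ := hbig
      exact CON V G u v huv k m (ih _ (contr G u v) k m (hdel v) hk (by omega)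
        (MIN V G u v huv m f h1 h2 h3 i hu hv))
    push Not at hbig
    have hone : ∀ i, ∀ x ∈ f i, ∀ y ∈ f i, x = y := by
      intro i x hx y hy
      by_contra hxy
      obtain ⟨p⟩ := (h1 i).preconnected ⟨x, hx⟩ ⟨y, hy⟩
      cases p with
      | nil => exact hxy rfl
      | cons hadj p => exact hbig i x hx _ (Subtype.mem _) hadj
    have hex : ∀ i, ∃ x, f i = {x} := by
      intro i
      obtain ⟨x, hx⟩ := (h1 i).nonempty
      exact ⟨x, Set.eq_singleton_iff_unique_mem.2 ⟨hx, fun y hy => hone i y hy x hx⟩⟩
    choose g hg using hex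
    have hgadj : ∀ i j, i ≠ j → G.Adj (g i) (g j) := by
      intro i j hij
      obtain ⟨x, hx, y, hy, hxy⟩ := h3 i j hij
      rw [hg] at hx hy
      have hx' : x = g i := hx
      have hy' : y = g j := hy
      rwa [hx', hy'] at hxy
    have hginj : Function.Injective g := by
      intro i j hij
      by_contra hne
      have := hgadj i j hne
      rw [hij] at this
      exact G.loopless.irrefl _ this
    by_cases hsurj : ∃ v, ∀ i, g i ≠ v
    · obtain ⟨v, hv⟩ := hsurj
      refine DEL V G v k m (ih _ (G.induce {x | x ≠ v}) k m (hdel v) hk (by omega) ?_)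
      refine ⟨fun i => {⟨g i, hv i⟩}, fun i => conn_singleton _ _, ?_, ?_⟩
      · intro i j hij
        rw [Set.disjoint_singleton]
        exact fun h => hij (hginj (congrArg Subtype.val h))
      · intro i j hij
        exact ⟨_, rfl, _, rfl, hgadj i j hij⟩
    · push Not at hsurj
      have htop : G = ⊤ := by
        ext x y
        rw [SimpleGraph.top_adj]
        refine ⟨fun h => h.ne, fun h => ?_⟩
        obtain ⟨i, rfl⟩ := hsurj x
        obtain ⟨j, rfl⟩ := hsurj y
        exact hgadj i j fun hij => h (congrArg g hij)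
      subst htop
      have hm : m = n + 1 := by
        rw [← hn, ← Nat.card_congr (Equiv.ofBijective g ⟨hginj, hsurj⟩), Nat.card_fin]
      subst hm
      have hne : Nonempty V := ⟨g 0⟩
      let v : V := g 0
      refine JOH V v k n hk (by omega) (ih _ _ k n (hdel v) hk (by omega) ?_)
      refine ⟨fun i => {⟨g i.succ, fun h => absurd (hginj h) (Fin.succ_ne_zero i)⟩},
        fun i => conn_singleton _ _, ?_, ?_⟩
      · intro i j hij
        rw [Set.disjoint_singleton]
        exact fun h => hij (Fin.succ_injective n (hginj (congrArg Subtype.val h)))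
      · intro i j hij
        refine ⟨_, rfl, _, rfl, ?_⟩
        change (⊤ : SimpleGraph V).Adj (g i.succ) (g j.succ)
        exact hgadj _ _ fun h => hij (Fin.succ_injective n h)

end Pool.Agent.R931.TK
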